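import Pool.Agent.helper36.UT.Spec

/-!
# Project UT (MP_37e5fa_nt), row BWL: bitwise operations
-/

set_option autoImplicit false

open Filter Polynomial FirstOrder FirstOrder.Language

namespace Pool.Agent.UnivT

theorem BWL_epm {s : ℕ → Bool} {p N : ℕ} (h : ∀ i, N ≤ i → s (i + p) = s i) (m : ℕ) :
    ∀ i, N ≤ i → s (i + p * m) = s i := by
  induction m with
  | zero => intro i _; rw [Nat.mul_zero, Nat.add_zero]
  | succ m ih =>
    intro i hi
    rw [Nat.mul_add, Nat.mul_one, ← Nat.add_assoc, h _ (by omega), ih i hi]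

theorem BWL_ep (β : Bool → Bool → Bool) {s t : ℕ → Bool} (hs : EP s) (ht : EP t) :
    EP (fun i => β (s i) (t i)) := by
  obtain ⟨p, N, hp, h1⟩ := hs
  obtain ⟨p', N', hp', h2⟩ := ht
  refine ⟨p * p', max N N', Nat.mul_pos hp hp', fun i hi => ?_⟩
  have a1 := BWL_epm h1 p' i (le_trans (le_max_left _ _) hi)
  have a2 := BWL_epm h2 p i (le_trans (le_max_right _ _) hi)
  rw [Nat.mul_comm p' p] at a2
  change β (s (i + p * p')) (t (i + p * p')) = β (s i) (t i)
  rw [a1, a2]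

theorem BWL_const {k : ℕ} {q : ℚ} {f : ℕ → ℤ} (h : Std k q [] f) : ∃ c : ℤ, ∀ᶠ H : ℕ in atTop, f H = c := by
  obtain ⟨_, _, h⟩ := h
  obtain ⟨H₀, hH₀⟩ := Filter.eventually_atTop.mp h
  refine ⟨f H₀, Filter.eventually_atTop.mpr ⟨H₀, fun H hH => ?_⟩⟩
  have h1 := hH₀ H hH
  have h2 := hH₀ H₀ le_rfl
  have h3 : (f H : ℚ) = f H₀ := by rw [h1, h2, ev_nil, ev_nil]
  exact_mod_cast h3

theorem BWL_nil (hLGD : LGD_stmt) (k : ℕ) (β : Bool → Bool → Bool) (q q' : ℚ) (f g : ℕ → ℤ)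
    (hf : Std k q [] f) (hg : Std k q' [] g) : Lev (k + 1) fun H => Int.bitwise β (f H) (g H) := by
  obtain ⟨c, hc⟩ := BWL_const hf
  obtain ⟨c', hc'⟩ := BWL_const hg
  refine (hLGD (k + 1)).2.2.1 (fun _ => Int.bitwise β c c') _ ((hLGD (k + 1)).1 _) ?_
  filter_upwards [hc, hc'] with H h1 h2
  rw [h1, h2]

theorem BWL_val {s t : ℕ → Bool} {L : ℕ} (h : ∀ i, i < L → s i = t i) : val s L = val t L := by
  unfold val
  refine Finset.sum_congr rfl (fun i hi => ?_)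
  rw [h i (Finset.mem_range.mp hi)]

theorem BWL_step (hLGD : LGD_stmt) (hMNE : MNE_stmt) (hEPF : EPF_stmt) (hBWS : BWS_stmt)
    (hEPV : EPV_stmt) (hSHR : SHR_stmt) (hPOW : POW_stmt) (hMUL : MUL_stmt) (k : ℕ) (β : Bool → Bool → Bool)
    (n : ℕ)
    (ih : ∀ (q : ℚ) (l : List (ℚ × (ℕ → ℤ))) (f : ℕ → ℤ) (q' : ℚ) (l' : List (ℚ × (ℕ → ℤ))) (g : ℕ → ℤ),
      Std k q l f → Std k q' l' g → l.length + l'.length ≤ n → Lev (k + 1) fun H => Int.bitwise β (f H) (g H))
    (q : ℚ) (l : List (ℚ × (ℕ → ℤ))) (f : ℕ → ℤ) (q' : ℚ) (l' : List (ℚ × (ℕ → ℤ))) (g : ℕ → ℤ)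
    (hf : Std k q l f) (hg : Std k q' l' g) (hn : l.length + l'.length ≤ n + 1) (hne : l ++ l' ≠ []) :
    Lev (k + 1) fun H => Int.bitwise β (f H) (g H) := by
  have hall : ∀ x ∈ l ++ l', Lev k x.2 ∧ x.1 ≠ 0 ∧ Tendsto x.2 atTop atTop := by
    intro x hx
    rcases List.mem_append.mp hx with h | h
    · exact hf.1 x h
    · exact hg.1 x h
  obtain ⟨x, hx, C, hC⟩ := hMNE k (l ++ l') hne (fun x hx => (hall x hx).1)
  obtain ⟨s, C1, hs, hs2⟩ := hEPF k q l f hf
  obtain ⟨t, C2, ht, ht2⟩ := hEPF k q' l' g hg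
  obtain ⟨D, hD1, hD2⟩ : ∃ D : ℤ, C1 - C ≤ D ∧ C2 - C ≤ D := ⟨max (C1 - C) (C2 - C), le_max_left _ _, le_max_right _ _⟩
  have hE : Lev k (fun H => x.2 H - D) := (hLGD k).2.1 x.2 (fun _ => D) (hall x hx).1 ((hLGD k).1 D)
  have hEt : Tendsto (fun H => x.2 H - D) atTop atTop := by
    have := tendsto_atTop_add_const_right atTop (-D) (hall x hx).2.2
    simpa [sub_eq_add_neg] using this
  have hnt : ¬ Tendsto (fun H => x.2 H - (x.2 H - D)) atTop atTop := by
    intro h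
    have h1 : (fun H => x.2 H - (x.2 H - D)) = fun _ : ℕ => D := by
      funext H
      ring
    rw [h1] at h
    obtain ⟨H, hH⟩ := (h.eventually_gt_atTop D).exists
    exact absurd hH (lt_irrefl _)
  obtain ⟨q1, l1, h1, h1l, h1s⟩ := hSHR k q l f (fun H => x.2 H - D) hf hE hEt
  obtain ⟨q2, l2, h2, h2l, h2s⟩ := hSHR k q' l' g (fun H => x.2 H - D) hg hE hEt
  have hlen : l1.length + l2.length ≤ n := by
    rcases List.mem_append.mp hx with h | h
    · have := h1s ⟨x, h, hnt⟩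
      omega
    · have := h2s ⟨x, h, hnt⟩
      omega
  have hhigh := ih q1 l1 _ q2 l2 _ h1 h2 hlen
  have hpow := hPOW k _ hE
  have hmul := hMUL k _ _ hpow hhigh
  have hlow := (hEPV k (fun i => β (s i) (t i)) (fun H => x.2 H - D) (BWL_ep β hs ht) hE hEt).1
  have hneg := (hLGD (k + 1)).2.1 _ _ ((hLGD (k + 1)).1 0) hmul
  have hsum := (hLGD (k + 1)).2.1 _ _ hlow hneg
  have es := hs2 (fun H => x.2 H - D) (fun y hy => by
    filter_upwards [hC y (List.mem_append.mpr (Or.inl hy))] with H hH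
    omega)
  have et := ht2 (fun H => x.2 H - D) (fun y hy => by
    filter_upwards [hC y (List.mem_append.mpr (Or.inr hy))] with H hH
    omega)
  refine (hLGD (k + 1)).2.2.1 _ _ hsum ?_
  filter_upwards [es, et] with H hH1 hH2
  rw [hBWS β (f H) (g H) (x.2 H - D).toNat]
  have hv : val (fun i => β ((f H).testBit i) ((g H).testBit i)) (x.2 H - D).toNat =
      val (fun i => β (s i) (t i)) (x.2 H - D).toNat := by
    refine BWL_val (fun i hi => ?_)
    have hi' : (i : ℤ) < x.2 H - D := by omega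
    rw [hH1 i hi', hH2 i hi']
  rw [hv]
  ring

theorem BWL (hLGD : LGD_stmt) (hSTD : STD_stmt) (hMNE : MNE_stmt) (hEPF : EPF_stmt) (hBWS : BWS_stmt)
    (hEPV : EPV_stmt) (hSHR : SHR_stmt) (hPOW : POW_stmt) (hMUL : MUL_stmt) : BWL_stmt := by
  intro k β f g hf hg
  have key : ∀ (n : ℕ) (q : ℚ) (l : List (ℚ × (ℕ → ℤ))) (f : ℕ → ℤ) (q' : ℚ) (l' : List (ℚ × (ℕ → ℤ))) (g : ℕ → ℤ),
      Std k q l f → Std k q' l' g → l.length + l'.length ≤ n → Lev (k + 1) fun H => Int.bitwise β (f H) (g H) := by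
    intro n
    induction n with
    | zero =>
      intro q l f q' l' g hf hg hn
      have h1 : l = [] := List.length_eq_zero_iff.mp (by omega)
      have h2 : l' = [] := List.length_eq_zero_iff.mp (by omega)
      subst h1
      subst h2
      exact BWL_nil hLGD k β q q' f g hf hg
    | succ n ih =>
      intro q l f q' l' g hf hg hn
      by_cases hne : l ++ l' = []
      · obtain ⟨h1, h2⟩ := List.append_eq_nil_iff.mp hne
        subst h1
        subst h2
        exact BWL_nil hLGD k β q q' f g hf hg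
      · exact BWL_step hLGD hMNE hEPF hBWS hEPV hSHR hPOW hMUL k β n ih q l f q' l' g hf hg hn hne
  obtain ⟨q, l, h1⟩ := hSTD k f hf
  obtain ⟨q', l', h2⟩ := hSTD k g hg
  exact key (l.length + l'.length) q l f q' l' g h1 h2 le_rfl

end Pool.Agent.UnivT
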